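import Mathlib

/-!
Helper file for `MP_42d775_co`: the lexicographic square of the line graph of `K_{3,3}` is a
self-complementary Berge graph without even pairs and without odd pairs of maximal cliques.
-/

set_option autoImplicit false

namespace Pool.Agent.X258.OPC

open SimpleGraph

variable {V W : Type*}

/-- The `3 × 3` rook graph, i.e. the line graph of `K_{3,3}`. -/
def Rook : SimpleGraph (ZMod 3 × ZMod 3) where
  Adj x y := (x.1 = y.1 ∧ x.2 ≠ y.2) ∨ (x.1 ≠ y.1 ∧ x.2 = y.2)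
  symm := ⟨by
    rintro x y (⟨h, h'⟩ | ⟨h, h'⟩)
    · exact Or.inl ⟨h.symm, h'.symm⟩
    · exact Or.inr ⟨h.symm, h'.symm⟩⟩
  loopless := ⟨by
    rintro x (⟨_, h⟩ | ⟨h, _⟩)
    · exact h rfl
    · exact h rfl⟩

instance : DecidableRel Rook.Adj := fun x y =>
  inferInstanceAs (Decidable ((x.1 = y.1 ∧ x.2 ≠ y.2) ∨ (x.1 ≠ y.1 ∧ x.2 = y.2)))

/-- Lexicographic product: every vertex of `H` is replaced by a copy of `F`. -/
def lex (H : SimpleGraph V) (F : SimpleGraph W) : SimpleGraph (V × W) where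
  Adj x y := H.Adj x.1 y.1 ∨ (x.1 = y.1 ∧ F.Adj x.2 y.2)
  symm := ⟨by
    rintro x y (h | ⟨h, h'⟩)
    · exact Or.inl h.symm
    · exact Or.inr ⟨h.symm, h'.symm⟩⟩
  loopless := ⟨by
    rintro x (h | ⟨_, h⟩)
    · exact H.irrefl h
    · exact F.irrefl h⟩

theorem lex_adj {H : SimpleGraph V} {F : SimpleGraph W} {x y : V × W} :
    (lex H F).Adj x y ↔ H.Adj x.1 y.1 ∨ (x.1 = y.1 ∧ F.Adj x.2 y.2) := Iff.rfl

/-- The isomorphism of the rook graph with its complement. -/
def rot : (ZMod 3 × ZMod 3) ≃ (ZMod 3 × ZMod 3) where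
  toFun x := (x.1 + x.2, x.1 - x.2)
  invFun x := (-(x.1 + x.2), x.2 - x.1)
  left_inv := by
    intro x; revert x; decide
  right_inv := by
    intro x; revert x; decide

theorem rot_adj : ∀ x y, Rook.Adj (rot x) (rot y) ↔ (x ≠ y ∧ ¬ Rook.Adj x y) := by
  decide

/-- The graph `G`, 81 vertices. -/
def G : SimpleGraph ((ZMod 3 × ZMod 3) × (ZMod 3 × ZMod 3)) := lex Rook Rook

/-- `G` is self-complementary. -/
def selfComp : Gᶜ ≃g G where
  toEquiv := Equiv.prodCongr rot rot
  map_rel_iff' := by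
    rintro ⟨a, f⟩ ⟨b, g⟩
    simp only [G, lex_adj, Equiv.prodCongr_apply, Prod.map, compl_adj, rot_adj, ne_eq, Prod.mk.injEq,
      EmbeddingLike.apply_eq_iff_eq]
    by_cases h : a = b
    · subst h
      simp
    · simp [h]

/-- The list of properties of `G` that are used. -/
structure Nice (H : SimpleGraph V) : Prop where
  hole : ∀ k : ℕ, 5 ≤ k → Odd k → IsEmpty (cycleGraph k ↪g H)
  path3 : ∀ x y, x ≠ y → ¬ H.Adj x y → ∃ u v, H.Adj x u ∧ H.Adj u v ∧ H.Adj v y ∧
    ¬ H.Adj x v ∧ ¬ H.Adj u y ∧ x ≠ v ∧ u ≠ y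
  common : ∀ x y, x ≠ y → ¬ H.Adj x y → ∀ K₁ K₂ : Set V, H.IsClique K₁ → H.IsClique K₂ →
    ∃ z, z ∉ K₁ ∧ z ∉ K₂ ∧ H.Adj x z ∧ H.Adj z y

theorem Nice.of_iso {H : SimpleGraph V} {H' : SimpleGraph W} (e : H ≃g H') (h : Nice H') :
    Nice H where
  hole k hk ho := ⟨fun f => (h.hole k hk ho).false (f.trans e.toEmbedding)⟩
  path3 x y hxy hn := by
    obtain ⟨u, v, h1, h2, h3, h4, h5, h6, h7⟩ := h.path3 (e x) (e y)
      (fun hh => hxy (e.injective hh)) (fun hh => hn (e.map_rel_iff.1 hh))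
    refine ⟨e.symm u, e.symm v, ?_, ?_, ?_, ?_, ?_, ?_, ?_⟩
    · rw [← e.map_rel_iff]; simpa using h1
    · rw [← e.map_rel_iff]; simpa using h2
    · rw [← e.map_rel_iff]; simpa using h3
    · rw [← e.map_rel_iff]; simpa using h4
    · rw [← e.map_rel_iff]; simpa using h5
    · rintro rfl; exact h6 (by simp)
    · rintro rfl; exact h7 (by simp)
  common x y hxy hn K₁ K₂ h1 h2 := by
    have key : ∀ K : Set V, H.IsClique K → H'.IsClique (e.symm ⁻¹' K) := by
      intro K hK a ha b hb hab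
      have := hK ha hb (fun hh => hab (e.symm.injective hh))
      rw [← e.map_rel_iff] at this
      simpa using this
    obtain ⟨z, hz1, hz2, hz3, hz4⟩ := h.common (e x) (e y)
      (fun hh => hxy (e.injective hh)) (fun hh => hn (e.map_rel_iff.1 hh)) _ _
      (key K₁ h1) (key K₂ h2)
    refine ⟨e.symm z, hz1, hz2, ?_, ?_⟩
    · rw [← e.map_rel_iff]; simpa using hz3
    · rw [← e.map_rel_iff]; simpa using hz4

/-! ### Odd holes -/

theorem rook_no_odd {n : ℕ} (ho : Odd (n + 5)) (c : ZMod (n + 5) → ZMod 3 × ZMod 3)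
    (hadj : ∀ i, Rook.Adj (c i) (c (i + 1)))
    (hne : ∀ i, c i ≠ c (i + 2)) (hnon : ∀ i, ¬ Rook.Adj (c i) (c (i + 2))) : False := by
  have step : ∀ i, ((c i).1 = (c (i + 1)).1 ↔ ¬ (c (i + 1)).1 = (c (i + 1 + 1)).1) := by
    intro i
    have e2 : i + 2 = i + 1 + 1 := by ring
    have h1 := hadj i
    have h2 := hadj (i + 1)
    have h3 := hne i
    have h4 := hnon i
    rw [e2] at h3 h4
    generalize c i = x at *
    generalize c (i + 1) = y at *
    generalize c (i + 1 + 1) = z at *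
    clear hadj hne hnon
    revert x y z
    decide
  have key : ∀ t : ℕ, ∀ i, ((c i).1 = (c (i + 1)).1 ↔
      (if Even t then (c (i + (t : ZMod (n + 5)))).1 = (c (i + (t : ZMod (n + 5)) + 1)).1 else
        ¬ (c (i + (t : ZMod (n + 5)))).1 = (c (i + (t : ZMod (n + 5)) + 1)).1)) := by
    intro t
    induction t with
    | zero => intro i; simp
    | succ t ih =>
      intro i
      rw [ih i]
      have := step (i + (t : ZMod (n + 5)))
      have e3 : i + ((t + 1 : ℕ) : ZMod (n + 5)) = i + (t : ZMod (n + 5)) + 1 := by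
        push_cast; ring
      rw [e3]
      by_cases ht : Even t
      · have ht' : ¬ Even (t + 1) := by
          rw [Nat.even_add_one]; simpa using ht
        rw [if_pos ht, if_neg ht']
        exact this
      · have ht' : Even (t + 1) := by
          rw [Nat.even_add_one]; exact ht
        rw [if_neg ht, if_pos ht']
        rw [this]; simp
  have h := key (n + 5) 0
  have hz : ((n + 5 : ℕ) : ZMod (n + 5)) = 0 := ZMod.natCast_self _
  rw [if_neg (by rw [Nat.not_even_iff_odd]; exact ho), hz] at h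
  simp at h

/-- The cycle of length at least five has no proper module with two elements. -/
theorem inj_or_const {n : ℕ} {H : SimpleGraph V} {F : SimpleGraph W}
    (c : ZMod (n + 5) → V × W)
    (hadj : ∀ i j, (lex H F).Adj (c i) (c j) ↔ (i - j = 1 ∨ j - i = 1)) :
    (∀ i j, (c i).1 = (c j).1 → i = j) ∨ (∀ i j, (c i).1 = (c j).1) := by
  classical
  by_contra hcon
  push Not at hcon
  obtain ⟨⟨i, j, hij, hne⟩, k, l, hkl⟩ := hcon
  have h1 : (1 : ZMod (n + 5)) ≠ 0 := by
    have : Fact (1 < n + 5) := ⟨by omega⟩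
    exact one_ne_zero
  have small : ∀ m : ℕ, 0 < m → m < n + 5 → (m : ZMod (n + 5)) ≠ 0 := by
    intro m hm hm' h0
    rw [ZMod.natCast_eq_zero_iff] at h0
    exact absurd (Nat.le_of_dvd hm h0) (by omega)
  have h2 : (2 : ZMod (n + 5)) ≠ 0 := by exact_mod_cast small 2 (by norm_num) (by omega)
  have h3 : (3 : ZMod (n + 5)) ≠ 0 := by exact_mod_cast small 3 (by norm_num) (by omega)
  have h4 : (4 : ZMod (n + 5)) ≠ 0 := by exact_mod_cast small 4 (by norm_num) (by omega)
  -- there is an index whose successor leaves the fibre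
  have hex : ∃ m, (c m).1 = (c i).1 ∧ (c (m + 1)).1 ≠ (c i).1 := by
    by_contra hno
    push Not at hno
    have all : ∀ t : ℕ, (c (i + (t : ZMod (n + 5)))).1 = (c i).1 := by
      intro t
      induction t with
      | zero => simp
      | succ t ih =>
        have := hno _ ih
        rw [← this]; congr 2; push_cast; ring
    have all' : ∀ k, (c k).1 = (c i).1 := by
      intro k
      have := all (k - i).val
      rw [ZMod.natCast_zmod_val] at this
      rw [← this]; congr 2; ring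
    exact hkl ((all' k).trans (all' l).symm)
  obtain ⟨m, hm, hm'⟩ := hex
  -- the module property
  have modu : ∀ p q r, (c p).1 = (c i).1 → (c q).1 = (c i).1 → (c r).1 ≠ (c i).1 →
      (r - p = 1 ∨ p - r = 1) → (r - q = 1 ∨ q - r = 1) := by
    intro p q r hp hq hr h
    rw [← hadj] at h ⊢
    rw [lex_adj] at h ⊢
    rcases h with h | ⟨h, _⟩
    · left; rw [hq, ← hp]; exact h
    · exact absurd (h.trans hp) hr
  have two : ∀ q, (c q).1 = (c i).1 → q = m ∨ q = m + 2 := by
    intro q hq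
    rcases modu m q (m + 1) hm hq hm' (Or.inl (by ring)) with h | h
    · left
      linear_combination -h
    · right
      linear_combination h
  have hm2 : (c (m + 2)).1 = (c i).1 := by
    rcases two i rfl with h | h
    · rcases two j hij.symm with h' | h'
      · exact absurd (h.trans h'.symm) hne
      · rw [← h']; exact hij.symm
    · rw [← h]
  have hm1 : (c (m - 1)).1 ≠ (c i).1 := by
    intro h
    rcases two _ h with h' | h'
    · exact h1 (by linear_combination -h')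
    · exact h3 (by linear_combination -h')
  rcases modu m (m + 2) (m - 1) hm hm2 hm1 (Or.inr (by ring)) with h | h
  · exact h4 (by linear_combination -h)
  · exact h2 (by linear_combination h)

theorem no_odd_hole (k : ℕ) (hk : 5 ≤ k) (ho : Odd k) : IsEmpty (cycleGraph k ↪g G) := by
  obtain ⟨n, rfl⟩ : ∃ n, k = n + 5 := ⟨k - 5, by omega⟩
  refine ⟨fun e => ?_⟩
  let c : ZMod (n + 5) → (ZMod 3 × ZMod 3) × (ZMod 3 × ZMod 3) := fun i => e i
  have hadj : ∀ i j, G.Adj (c i) (c j) ↔ (i - j = 1 ∨ j - i = 1) := by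
    intro i j
    exact e.map_rel_iff
  have small : ∀ m : ℕ, 0 < m → m < n + 5 → (m : ZMod (n + 5)) ≠ 0 := by
    intro m hm hm' h0
    rw [ZMod.natCast_eq_zero_iff] at h0
    exact absurd (Nat.le_of_dvd hm h0) (by omega)
  have h1 : (1 : ZMod (n + 5)) ≠ 0 := by exact_mod_cast small 1 (by norm_num) (by omega)
  have h2 : (2 : ZMod (n + 5)) ≠ 0 := by exact_mod_cast small 2 (by norm_num) (by omega)
  have h3 : (3 : ZMod (n + 5)) ≠ 0 := by exact_mod_cast small 3 (by norm_num) (by omega)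
  have cinj : ∀ i j, c i = c j → i = j := fun i j h => e.injective h
  have n1 : ∀ i : ZMod (n + 5), ¬ (i - (i + 2) = 1 ∨ i + 2 - i = 1) := by
    rintro i (h | h)
    · exact h3 (by linear_combination -h)
    · exact h1 (by linear_combination h)
  have n2 : ∀ i : ZMod (n + 5), i ≠ i + 2 := by
    intro i h
    exact h2 (by linear_combination -h)
  have n3 : ∀ i : ZMod (n + 5), i ≠ i + 1 := by
    intro i h
    exact h1 (by linear_combination -h)
  rcases inj_or_const c hadj with hin | hco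
  · apply rook_no_odd ho (fun i => (c i).1)
    · intro i
      have := (hadj i (i + 1)).2 (Or.inr (by ring))
      rcases this with h | ⟨h, _⟩
      · exact h
      · exact absurd (hin _ _ h) (n3 i)
    · intro i h
      exact n2 i (hin _ _ h)
    · intro i h
      exact n1 i ((hadj i (i + 2)).1 (Or.inl h))
  · apply rook_no_odd ho (fun i => (c i).2)
    · intro i
      have := (hadj i (i + 1)).2 (Or.inr (by ring))
      rcases this with h | ⟨_, h⟩
      · rw [hco i (i + 1)] at h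
        exact absurd h (Rook.irrefl)
      · exact h
    · intro i h
      exact n2 i (cinj _ _ (Prod.ext (hco _ _) h))
    · intro i h
      exact n1 i ((hadj i (i + 2)).1 (Or.inr ⟨hco _ _, h⟩))

/-! ### Paths of length three, common neighbours -/

theorem rook_path3 : ∀ x y : ZMod 3 × ZMod 3, x ≠ y → ¬ Rook.Adj x y →
    Rook.Adj x (x.1, -(x.2 + y.2)) ∧ Rook.Adj (x.1, -(x.2 + y.2)) (y.1, -(x.2 + y.2)) ∧
    Rook.Adj (y.1, -(x.2 + y.2)) y ∧ ¬ Rook.Adj x (y.1, -(x.2 + y.2)) ∧
    ¬ Rook.Adj (x.1, -(x.2 + y.2)) y ∧ x ≠ (y.1, -(x.2 + y.2)) ∧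
    (x.1, -(x.2 + y.2)) ≠ y := by
  decide

theorem rook_common : ∀ x y : ZMod 3 × ZMod 3, ¬ Rook.Adj x y →
    ∃ z, Rook.Adj x z ∧ Rook.Adj z y := by
  decide

theorem rook_two_cliques (A B : Set (ZMod 3 × ZMod 3)) (hA : Rook.IsClique A)
    (hB : Rook.IsClique B) : ∃ f, f ∉ A ∧ f ∉ B := by
  by_contra hno
  push Not at hno
  have n01 : ¬ Rook.Adj (0, 0) (1, 1) := by decide
  have n02 : ¬ Rook.Adj (0, 0) (2, 2) := by decide
  have n12 : ¬ Rook.Adj (1, 1) (2, 2) := by decide
  have d01 : ((0, 0) : ZMod 3 × ZMod 3) ≠ (1, 1) := by decide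
  have d02 : ((0, 0) : ZMod 3 × ZMod 3) ≠ (2, 2) := by decide
  have d12 : ((1, 1) : ZMod 3 × ZMod 3) ≠ (2, 2) := by decide
  by_cases h0 : ((0, 0) : ZMod 3 × ZMod 3) ∈ A <;>
  by_cases h1 : ((1, 1) : ZMod 3 × ZMod 3) ∈ A <;>
  by_cases h2 : ((2, 2) : ZMod 3 × ZMod 3) ∈ A
  · exact n01 (hA h0 h1 d01)
  · exact n01 (hA h0 h1 d01)
  · exact n02 (hA h0 h2 d02)
  · exact n12 (hB (hno _ h1) (hno _ h2) d12)
  · exact n12 (hA h1 h2 d12)
  · exact n02 (hB (hno _ h0) (hno _ h2) d02)
  · exact n01 (hB (hno _ h0) (hno _ h1) d01)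
  · exact n01 (hB (hno _ h0) (hno _ h1) d01)

theorem nice_G : Nice G where
  hole := no_odd_hole
  path3 := by
    rintro ⟨a, f⟩ ⟨b, g⟩ hne hn
    by_cases hab : a = b
    · subst hab
      have hfg : f ≠ g := fun h => hne (by rw [h])
      have hnf : ¬ Rook.Adj f g := fun h => hn (Or.inr ⟨rfl, h⟩)
      obtain ⟨h1, h2, h3, h4, h5, h6, h7⟩ := rook_path3 f g hfg hnf
      refine ⟨(a, (f.1, -(f.2 + g.2))), (a, (g.1, -(f.2 + g.2))), Or.inr ⟨rfl, h1⟩, Or.inr ⟨rfl, h2⟩, Or.inr ⟨rfl, h3⟩, ?_, ?_, ?_, ?_⟩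
      · rintro (h | ⟨_, h⟩)
        · exact Rook.irrefl h
        · exact h4 h
      · rintro (h | ⟨_, h⟩)
        · exact Rook.irrefl h
        · exact h5 h
      · intro h; exact h6 (Prod.mk.inj h).2
      · intro h; exact h7 (Prod.mk.inj h).2
    · have hnf : ¬ Rook.Adj a b := fun h => hn (Or.inl h)
      obtain ⟨h1, h2, h3, h4, h5, h6, h7⟩ := rook_path3 a b hab hnf
      refine ⟨((a.1, -(a.2 + b.2)), 0), ((b.1, -(a.2 + b.2)), 0), Or.inl h1, Or.inl h2, Or.inl h3, ?_, ?_, ?_, ?_⟩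
      · rintro (h | ⟨h, _⟩)
        · exact h4 h
        · exact h6 h
      · rintro (h | ⟨h, _⟩)
        · exact h5 h
        · exact h7 h
      · intro h; exact h6 (Prod.mk.inj h).1
      · intro h; exact h7 (Prod.mk.inj h).1
  common := by
    rintro ⟨a, f⟩ ⟨b, g⟩ hne hn K₁ K₂ h1 h2
    have hnab : ¬ Rook.Adj a b := fun h => hn (Or.inl h)
    obtain ⟨c, hc1, hc2⟩ := rook_common a b hnab
    have cl : ∀ K : Set ((ZMod 3 × ZMod 3) × (ZMod 3 × ZMod 3)), G.IsClique K →
        Rook.IsClique {f | (c, f) ∈ K} := by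
      intro K hK p hp q hq hpq
      rcases hK hp hq (fun h => hpq (Prod.mk.inj h).2) with h | ⟨_, h⟩
      · exact absurd h Rook.irrefl
      · exact h
    obtain ⟨z, hz1, hz2⟩ := rook_two_cliques _ _ (cl K₁ h1) (cl K₂ h2)
    exact ⟨(c, z), hz1, hz2, Or.inl hc1, Or.inl hc2⟩

theorem nice_compl : Nice Gᶜ := Nice.of_iso selfComp nice_G

end Pool.Agent.X258.OPC
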